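import Pool.Agent.H37.CPX.Targets

/-!
# Large sets on both sides (row NXY of cpx_modules, MP_c62aed_lc)
-/

set_option autoImplicit false

namespace Pool.Agent.H4.CPX

open Finset Pool.Agent.H37.CPX

theorem sq_pow (x : ℝ) (n : ℕ) : (x ^ n) ^ 2 = (x ^ 2) ^ n := by
  rw [← pow_mul, ← pow_mul, mul_comm]

/-- the combinatorial part -/
theorem nxy_nat {L z uX uY nl nh t0 r : ℕ} (hz : 1 ≤ z) (hr : 50 * (L + 5) ^ 2 ≤ r)
    (ht0 : t0 ≤ uX + uY)
    (h1 : 32 * uX + 3 * nh < 16 * z + 16 * (L * uY) + 80 * nl)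
    (h2 : r * uY + r * nl < 5 + 2 * z + 2 * L * (uX + uY) + 4 * uY + 2 * L * nl) :
    nh ≤ 8 * z ∧ nl ≤ z ∧ t0 ≤ 2 * z ∧ 2 * (L * uY) + 10 * nl ≤ z ∧ uX + uY ≤ z := by
  obtain ⟨M, hM⟩ : ∃ M, M = (L + 5) * (uY + nl) := ⟨_, rfl⟩
  have hMe : M = L * uY + L * nl + 5 * uY + 5 * nl := by
    rw [hM]
    ring
  have h3 : 2 * uX ≤ z + M := by omega
  have h4 : L * (2 * uX) ≤ L * (z + M) := Nat.mul_le_mul_left L h3
  have h5 : 50 * (L + 5) * M ≤ r * uY + r * nl := by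
    calc 50 * (L + 5) * M = 50 * (L + 5) ^ 2 * (uY + nl) := by
          rw [hM]
          ring
      _ ≤ r * (uY + nl) := Nat.mul_le_mul_right _ hr
      _ = r * uY + r * nl := by ring
  have h6 : 49 * ((L + 5) * M) < (L + 7) * z := by
    have e1 : 2 * L * (uX + uY) = L * (2 * uX) + 2 * (L * uY) := by ring
    have e2 : 2 * L * nl = 2 * (L * nl) := by ring
    have e3 : L * (z + M) = L * z + L * M := by ring
    have e4 : 50 * (L + 5) * M = 50 * (L * M) + 250 * M := by ring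
    have e5 : (L + 5) * M = L * M + 5 * M := by ring
    have e6 : (L + 7) * z = L * z + 7 * z := by ring
    rw [e1, e2] at h2
    rw [e3] at h4
    rw [e4] at h5
    rw [e5, e6]
    omega
  have h7 : 7 * (L + 5) * (35 * M) < 7 * (L + 5) * z := by
    calc 7 * (L + 5) * (35 * M) = 5 * (49 * ((L + 5) * M)) := by ring
      _ < 5 * ((L + 7) * z) := by omega
      _ ≤ 7 * (L + 5) * z := by
        have e1 : 5 * ((L + 7) * z) = 5 * (L * z) + 35 * z := by ring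
        have e2 : 7 * (L + 5) * z = 7 * (L * z) + 35 * z := by ring
        rw [e1, e2]
        omega
  have h8 : 35 * M < z := lt_of_mul_lt_mul_left h7 (Nat.zero_le _)
  refine ⟨?_, ?_, ?_, ?_, ?_⟩ <;> omega

theorem L_le {L r : ℕ} (hr : 50 * (L + 5) ^ 2 ≤ r) : 2 * L ≤ r ∧ 4 ≤ r := by
  have h : 50 * (L + 5) ^ 2 = 50 * L ^ 2 + 500 * L + 1250 := by ring
  omega

theorem bern {z nh : ℕ} (hz : 1 ≤ z) (hnh : nh ≤ 8 * z + 1) :
    1 / 8 ≤ ((1 - 1 / (16 * (z : ℝ))) ^ 2) ^ nh := by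
  have hz' : (1 : ℝ) ≤ z := by exact_mod_cast hz
  set x : ℝ := 1 - 1 / (16 * (z : ℝ)) with hx
  have h0 : 1 / (16 * (z : ℝ)) ≤ 1 / 16 := by
    apply one_div_le_one_div_of_le (by norm_num)
    linarith
  have h0' : 0 < 1 / (16 * (z : ℝ)) := by positivity
  have hx1 : 15 / 16 ≤ x := by rw [hx]; linarith
  have hx2 : x ≤ 1 := by rw [hx]; linarith
  have hx0 : 0 ≤ x := by linarith
  have h1 : 1 / 2 ≤ x ^ (8 * z) := by
    have h2 := one_add_mul_le_pow (a := -(1 / (16 * (z : ℝ)))) (by linarith) (8 * z)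
    have h3 : 1 + ((8 * z : ℕ) : ℝ) * -(1 / (16 * (z : ℝ))) = 1 / 2 := by
      push_cast
      field_simp
      ring
    rw [h3] at h2
    have h4 : 1 + -(1 / (16 * (z : ℝ))) = x := by rw [hx]; ring
    rwa [h4] at h2
  calc (1 : ℝ) / 8 ≤ (1 / 2) ^ 2 * (15 / 16) ^ 2 := by norm_num
    _ ≤ (x ^ (8 * z)) ^ 2 * x ^ 2 := by
      apply mul_le_mul
      · exact pow_le_pow_left₀ (by norm_num) h1 2
      · exact pow_le_pow_left₀ (by norm_num) hx1 2
      · positivity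
      · positivity
    _ = (x ^ 2) ^ (8 * z + 1) := by
      rw [sq_pow, pow_succ (x ^ 2) (8 * z)]
    _ ≤ (x ^ 2) ^ nh := pow_le_pow_of_le_one (by positivity) (by nlinarith) hnh

theorem nxy_core {N z L t t0 uX uY nl nh r k : ℕ} {p R Q b c cA cB : ℝ} (hN : 1 ≤ N)
    (hz : 1 ≤ z) (hp : 16 ≤ p) (hRQ : R ^ 2 = Q) (hQ1 : 1 ≤ Q) (hb : 0 < b)
    (hc2 : c ^ 2 = 2 ^ r) (hl : 64 * N * z * Q ^ (k + 4) ≤ 2 ^ L)
    (hr : 50 * (L + 5) ^ 2 ≤ r) (ht : t ≤ (k + 4) * t0) (ht0 : t0 ≤ uX + uY)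
    (hnh : nh ≤ 8 * z + 1) (hcA : cA ≤ Q ^ (N - t)) (hcB : cB ≤ (b ^ 2) ^ (N - t))
    (h1 : ((1 / 2) ^ z * R ^ (N - t) * (p / 4) ^ uX * (1 / (8 * (N : ℝ))) ^ uY *
      (1 / 32) ^ nl * (8 / 7) ^ nh) ^ 2 < cA)
    (h2 : ((1 / 2) ^ z * b ^ (N - t) * (1 / Q) ^ t * (1 / (64 * (N : ℝ) * z)) ^ uX *
      (c / 4) ^ uY * (c / (32 * z)) ^ nl * (1 - 1 / (16 * z)) ^ nh) ^ 2 < 4 * cB) :
    nh ≤ 8 * z ∧ nl ≤ z ∧ t0 ≤ 2 * z ∧ Q ^ (N - t) ≤ 2 ^ (3 * z) * cA ∧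
      (b ^ 2) ^ (N - t) ≤ 2 ^ (2 * z + 5 + 4 * L * z) * cB := by
  have hN' : (1 : ℝ) ≤ N := by exact_mod_cast hN
  have hz' : (1 : ℝ) ≤ z := by exact_mod_cast hz
  have hN0 : (0 : ℝ) < N := by linarith
  have hz0 : (0 : ℝ) < z := by linarith
  have hQ0 : 0 < Q := by linarith
  -- consequences of the bound for `2 ^ L`
  have hQk : 1 ≤ Q ^ (k + 4) := one_le_pow₀ hQ1
  have hNz : (1 : ℝ) ≤ N * z := one_le_mul_of_one_le_of_one_le hN' hz'
  have hNz1 : (N : ℝ) ≤ N * z := le_mul_of_one_le_right hN0.le hz'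
  have hNz2 : (z : ℝ) ≤ N * z := le_mul_of_one_le_left hz0.le hN'
  have l0 : 64 * (N : ℝ) * z ≤ 2 ^ L := by
    refine le_trans ?_ hl
    exact le_mul_of_one_le_right (by positivity) hQk
  have l1 : 8 * (N : ℝ) ≤ 2 ^ L := by
    refine le_trans ?_ l0
    linarith
  have l2 : 32 * (z : ℝ) ≤ 2 ^ L := by
    refine le_trans ?_ l0
    linarith
  have l3 : Q ^ (k + 4) ≤ 2 ^ L := by
    refine le_trans ?_ hl
    have : (1 : ℝ) ≤ 64 * N * z := by linarith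
    exact le_mul_of_one_le_left (by positivity) this
  -- the first side
  set D := Q ^ (N - t) with hD
  have hD0 : 0 < D := pow_pos hQ0 _
  set x1 : ℝ := (p ^ 2 / 16) ^ uX with hx1
  set x2 : ℝ := (64 / 49) ^ nh with hx2
  set y : ℝ := 4 ^ z * ((8 * (N : ℝ)) ^ 2) ^ uY * 1024 ^ nl with hy
  have hy0 : 0 < y := by positivity
  have e1 : ((1 / 2) ^ z * R ^ (N - t) * (p / 4) ^ uX * (1 / (8 * (N : ℝ))) ^ uY *
      (1 / 32) ^ nl * (8 / 7) ^ nh) ^ 2 = D * (x1 * x2) / y := by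
    rw [mul_pow, mul_pow, mul_pow, mul_pow, mul_pow, sq_pow, sq_pow, sq_pow, sq_pow, sq_pow,
      sq_pow, hRQ]
    have a1 : ((1 : ℝ) / 2) ^ 2 = 1 / 4 := by norm_num
    have a2 : (p / 4) ^ 2 = p ^ 2 / 16 := by ring
    have a3 : (1 / (8 * (N : ℝ))) ^ 2 = 1 / (8 * (N : ℝ)) ^ 2 := one_div_pow _ _
    have a4 : ((1 : ℝ) / 32) ^ 2 = 1 / 1024 := by norm_num
    have a5 : ((8 : ℝ) / 7) ^ 2 = 64 / 49 := by norm_num
    rw [a1, a2, a3, a4, a5, one_div_pow, one_div_pow, one_div_pow]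
    rw [hx1, hx2, hy, eq_div_iff (by positivity)]
    have b1 : (4 : ℝ) ^ z ≠ 0 := by positivity
    have b2 : ((8 * (N : ℝ)) ^ 2) ^ uY ≠ 0 := by positivity
    have b3 : (1024 : ℝ) ^ nl ≠ 0 := by positivity
    generalize (p ^ 2 / 16) ^ uX = g1
    generalize ((64 : ℝ) / 49) ^ nh = g2
    generalize (4 : ℝ) ^ z = g3 at *
    generalize ((8 * (N : ℝ)) ^ 2) ^ uY = g4 at *
    generalize (1024 : ℝ) ^ nl = g5 at *
    rw [← hD]
    field_simp
  rw [e1] at h1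
  have hp2 : (16 : ℝ) ≤ p ^ 2 / 16 := by
    have h3 : (16 : ℝ) ^ 2 ≤ p ^ 2 := pow_le_pow_left₀ (by norm_num) hp 2
    have h4 : (16 : ℝ) ^ 2 = 256 := by norm_num
    rw [h4] at h3
    linarith
  have hx1b : 2 ^ (4 * uX) ≤ x1 := by
    rw [hx1, pow_mul]
    exact pow_le_pow_left₀ (by norm_num) (by norm_num; exact hp2) _
  have hx1' : 1 ≤ x1 := one_le_pow₀ (by linarith)
  have hx2' : 1 ≤ x2 := one_le_pow₀ (by norm_num)
  have hx2b : 2 ^ (3 * nh) ≤ x2 ^ 8 := by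
    rw [hx2, ← pow_mul, mul_comm nh 8, pow_mul, pow_mul]
    exact pow_le_pow_left₀ (by norm_num) (by norm_num) _
  have hyb : y ≤ 2 ^ (2 * z + 2 * (L * uY) + 10 * nl) := by
    rw [hy, pow_add, pow_add]
    apply mul_le_mul (mul_le_mul ?_ ?_ (by positivity) (by positivity)) ?_ (by positivity)
      (by positivity)
    · rw [pow_mul]
      norm_num
    · have : (2 : ℝ) ^ (2 * (L * uY)) = ((2 ^ L) ^ 2) ^ uY := by
        rw [← pow_mul, ← pow_mul]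
        congr 1
        ring
      rw [this]
      exact pow_le_pow_left₀ (by positivity) (pow_le_pow_left₀ (by positivity) l1 2) _
    · rw [pow_mul]
      norm_num
  have hW : x1 * x2 < y := by
    have h3 : D * (x1 * x2) / y < D := lt_of_lt_of_le h1 hcA
    rw [div_lt_iff₀ hy0] at h3
    exact lt_of_mul_lt_mul_left h3 hD0.le
  have hi : 32 * uX + 3 * nh < 16 * z + 16 * (L * uY) + 80 * nl := by
    have h3 : (2 : ℝ) ^ (32 * uX + 3 * nh) < 2 ^ (16 * z + 16 * (L * uY) + 80 * nl) := by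
      calc (2 : ℝ) ^ (32 * uX + 3 * nh) = (2 ^ (4 * uX)) ^ 8 * 2 ^ (3 * nh) := by
            rw [← pow_mul, ← pow_add]
            congr 1
            ring
        _ ≤ x1 ^ 8 * x2 ^ 8 := by
          apply mul_le_mul (pow_le_pow_left₀ (by positivity) hx1b 8) hx2b (by positivity)
            (by positivity)
        _ = (x1 * x2) ^ 8 := by rw [mul_pow]
        _ < y ^ 8 := pow_lt_pow_left₀ hW (by positivity) (by norm_num)
        _ ≤ (2 ^ (2 * z + 2 * (L * uY) + 10 * nl)) ^ 8 := pow_le_pow_left₀ hy0.le hyb 8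
        _ = 2 ^ (16 * z + 16 * (L * uY) + 80 * nl) := by
          rw [← pow_mul]
          congr 1
          ring
    exact (pow_lt_pow_iff_right₀ one_lt_two).1 h3
  -- the second side
  set E := (b ^ 2) ^ (N - t) with hE
  have hE0 : 0 < E := by positivity
  set v1 : ℝ := (2 ^ r) ^ uY * (2 ^ r) ^ nl with hv1
  set v3 : ℝ := ((1 - 1 / (16 * (z : ℝ))) ^ 2) ^ nh with hv3
  set v4 : ℝ := 4 ^ z * ((Q ^ 2) ^ t * ((64 * (N : ℝ) * z) ^ 2) ^ uX) with hv4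
  set v5 : ℝ := 16 ^ uY * ((32 * (z : ℝ)) ^ 2) ^ nl with hv5
  have hv40 : 0 < v4 := by positivity
  have hv50 : 0 < v5 := by positivity
  have hv3b : 1 / 8 ≤ v3 := bern hz hnh
  have e2 : ((1 / 2) ^ z * b ^ (N - t) * (1 / Q) ^ t * (1 / (64 * (N : ℝ) * z)) ^ uX *
      (c / 4) ^ uY * (c / (32 * z)) ^ nl * (1 - 1 / (16 * z)) ^ nh) ^ 2 =
      E * (v1 * v3) / (v4 * v5) := by
    rw [mul_pow, mul_pow, mul_pow, mul_pow, mul_pow, mul_pow, sq_pow, sq_pow, sq_pow, sq_pow,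
      sq_pow, sq_pow, sq_pow]
    have a1 : ((1 : ℝ) / 2) ^ 2 = 1 / 4 := by norm_num
    have a2 : (1 / Q) ^ 2 = 1 / Q ^ 2 := one_div_pow _ _
    have a3 : (1 / (64 * (N : ℝ) * z)) ^ 2 = 1 / (64 * (N : ℝ) * z) ^ 2 := one_div_pow _ _
    have a4 : (c / 4) ^ 2 = 2 ^ r / 16 := by rw [div_pow, hc2]; norm_num
    have a5 : (c / (32 * (z : ℝ))) ^ 2 = 2 ^ r / (32 * (z : ℝ)) ^ 2 := by rw [div_pow, hc2]
    rw [a1, a2, a3, a4, a5, one_div_pow, one_div_pow, one_div_pow, div_pow, div_pow]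
    rw [hv1, hv3, hv4, hv5, eq_div_iff (by positivity)]
    have b1 : (4 : ℝ) ^ z ≠ 0 := by positivity
    have b2 : (Q ^ 2) ^ t ≠ 0 := by positivity
    have b3 : ((64 * (N : ℝ) * z) ^ 2) ^ uX ≠ 0 := by positivity
    have b4 : (16 : ℝ) ^ uY ≠ 0 := by positivity
    have b5 : ((32 * (z : ℝ)) ^ 2) ^ nl ≠ 0 := by positivity
    generalize ((1 - 1 / (16 * (z : ℝ))) ^ 2) ^ nh = g1
    generalize ((2 : ℝ) ^ r) ^ uY = g2
    generalize ((2 : ℝ) ^ r) ^ nl = g3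
    generalize (4 : ℝ) ^ z = g4 at *
    generalize (Q ^ 2) ^ t = g5 at *
    generalize ((64 * (N : ℝ) * z) ^ 2) ^ uX = g6 at *
    generalize (16 : ℝ) ^ uY = g7 at *
    generalize ((32 * (z : ℝ)) ^ 2) ^ nl = g8 at *
    rw [← hE]
    field_simp
  rw [e2] at h2
  have hv4b : v4 ≤ 2 ^ (2 * z + 2 * L * (uX + uY)) := by
    have htu : t ≤ (k + 4) * (uX + uY) := ht.trans (Nat.mul_le_mul_left _ ht0)
    have c1 : (Q ^ 2) ^ t ≤ ((Q ^ (k + 4)) ^ 2) ^ uX * ((Q ^ (k + 4)) ^ 2) ^ uY := by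
      calc (Q ^ 2) ^ t ≤ (Q ^ 2) ^ ((k + 4) * (uX + uY)) :=
            pow_le_pow_right₀ (one_le_pow₀ hQ1) htu
        _ = ((Q ^ (k + 4)) ^ 2) ^ uX * ((Q ^ (k + 4)) ^ 2) ^ uY := by
          rw [← pow_add, ← pow_mul, ← pow_mul, ← pow_mul]
          congr 1
          ring
    have c2 : ((Q ^ (k + 4)) ^ 2) ^ uX * ((64 * (N : ℝ) * z) ^ 2) ^ uX ≤ ((2 ^ L) ^ 2) ^ uX := by
      rw [← mul_pow, ← mul_pow]
      refine pow_le_pow_left₀ (by positivity) (pow_le_pow_left₀ (by positivity) ?_ 2) _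
      rw [mul_comm]
      exact hl
    have c3 : ((Q ^ (k + 4)) ^ 2) ^ uY ≤ ((2 ^ L) ^ 2) ^ uY :=
      pow_le_pow_left₀ (by positivity) (pow_le_pow_left₀ (by positivity) l3 2) _
    calc v4 = 4 ^ z * ((Q ^ 2) ^ t * ((64 * (N : ℝ) * z) ^ 2) ^ uX) := hv4
      _ ≤ 4 ^ z * (((Q ^ (k + 4)) ^ 2) ^ uX * ((Q ^ (k + 4)) ^ 2) ^ uY *
          ((64 * (N : ℝ) * z) ^ 2) ^ uX) := by gcongr
      _ = 4 ^ z * ((((Q ^ (k + 4)) ^ 2) ^ uX * ((64 * (N : ℝ) * z) ^ 2) ^ uX) *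
          ((Q ^ (k + 4)) ^ 2) ^ uY) := by ring
      _ ≤ 4 ^ z * (((2 ^ L) ^ 2) ^ uX * ((2 ^ L) ^ 2) ^ uY) := by gcongr
      _ = 2 ^ (2 * z + 2 * L * (uX + uY)) := by
        have c4 : (4 : ℝ) ^ z = 2 ^ (2 * z) := by
          rw [pow_mul]
          norm_num
        have c5 : ∀ n : ℕ, (((2 : ℝ) ^ L) ^ 2) ^ n = 2 ^ (2 * L * n) := by
          intro n
          rw [← pow_mul, ← pow_mul]
          congr 1
          ring
        rw [c4, c5, c5, ← pow_add, ← pow_add]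
        congr 1
        ring
  have hv5b : v5 ≤ 2 ^ (4 * uY + 2 * L * nl) := by
    rw [hv5, pow_add]
    apply mul_le_mul ?_ ?_ (by positivity) (by positivity)
    · rw [pow_mul]
      norm_num
    · have : (2 : ℝ) ^ (2 * L * nl) = ((2 ^ L) ^ 2) ^ nl := by
        rw [← pow_mul, ← pow_mul]
        congr 1
        ring
      rw [this]
      exact pow_le_pow_left₀ (by positivity) (pow_le_pow_left₀ (by positivity) l2 2) _
  have hv10 : 0 < v1 := by positivity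
  have hV : v1 * v3 < 4 * (v4 * v5) := by
    have h3 : E * (v1 * v3) / (v4 * v5) < 4 * E := by
      refine lt_of_lt_of_le h2 ?_
      linarith
    rw [div_lt_iff₀ (by positivity)] at h3
    have h4 : E * (v1 * v3) < E * (4 * (v4 * v5)) := by
      calc E * (v1 * v3) < 4 * E * (v4 * v5) := h3
        _ = E * (4 * (v4 * v5)) := by ring
    exact lt_of_mul_lt_mul_left h4 hE0.le
  have hii : r * uY + r * nl < 5 + 2 * z + 2 * L * (uX + uY) + 4 * uY + 2 * L * nl := by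
    have h3 : (2 : ℝ) ^ (r * uY + r * nl) <
        2 ^ (5 + 2 * z + 2 * L * (uX + uY) + 4 * uY + 2 * L * nl) := by
      calc (2 : ℝ) ^ (r * uY + r * nl) = v1 := by
            rw [hv1, ← pow_mul, ← pow_mul, ← pow_add]
        _ ≤ 8 * (v1 * v3) := by
          have h9 := mul_le_mul_of_nonneg_left hv3b hv10.le
          linarith
        _ < 8 * (4 * (v4 * v5)) := by linarith
        _ ≤ 8 * (4 * (2 ^ (2 * z + 2 * L * (uX + uY)) * 2 ^ (4 * uY + 2 * L * nl))) := by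
          gcongr
        _ = 2 ^ 5 * 2 ^ ((2 * z + 2 * L * (uX + uY)) + (4 * uY + 2 * L * nl)) := by
          rw [pow_add]
          norm_num
          ring
        _ = 2 ^ (5 + 2 * z + 2 * L * (uX + uY) + 4 * uY + 2 * L * nl) := by
          rw [← pow_add]
          congr 1
          ring
    exact (pow_lt_pow_iff_right₀ one_lt_two).1 h3
  obtain ⟨g1, g2, g3, g4, g5⟩ := nxy_nat hz hr ht0 hi hii
  refine ⟨g1, g2, g3, ?_, ?_⟩
  · have hcA0 : 0 < cA := lt_of_le_of_lt (by positivity) h1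
    have h3 : D ≤ D * (x1 * x2) :=
      le_mul_of_one_le_right hD0.le (one_le_mul_of_one_le_of_one_le hx1' hx2')
    have h4 : D * (x1 * x2) ≤ cA * y := by
      rw [div_lt_iff₀ hy0] at h1
      exact h1.le
    calc D ≤ cA * y := h3.trans h4
      _ ≤ cA * 2 ^ (2 * z + 2 * (L * uY) + 10 * nl) := by gcongr
      _ ≤ cA * 2 ^ (3 * z) := by
        gcongr
        · norm_num
        · omega
      _ = 2 ^ (3 * z) * cA := mul_comm _ _
  · have hv30 : 0 < v3 := by linarith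
    have hcB0 : 0 < cB := by
      have : 0 ≤ E * (v1 * v3) / (v4 * v5) := by positivity
      linarith
    have hL2 : 2 * L ≤ r := (L_le hr).1
    have h16 : (16 : ℝ) ≤ 2 ^ r := by
      have h5 : (2 : ℝ) ^ 4 ≤ 2 ^ r := pow_le_pow_right₀ one_le_two (L_le hr).2
      have h6 : (2 : ℝ) ^ 4 = 16 := by norm_num
      rwa [h6] at h5
    have hz2 : (32 * (z : ℝ)) ^ 2 ≤ 2 ^ r := by
      calc (32 * (z : ℝ)) ^ 2 ≤ (2 ^ L) ^ 2 := pow_le_pow_left₀ (by positivity) l2 2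
        _ = 2 ^ (2 * L) := by rw [← pow_mul, mul_comm]
        _ ≤ 2 ^ r := pow_le_pow_right₀ one_le_two hL2
    have h5 : v5 ≤ v1 := by
      rw [hv5, hv1]
      exact mul_le_mul (pow_le_pow_left₀ (by norm_num) h16 _)
        (pow_le_pow_left₀ (by positivity) hz2 _) (by positivity) (by positivity)
    have h6 : E * (v1 * v3) < 4 * cB * (v4 * v5) := by
      rwa [div_lt_iff₀ (by positivity)] at h2
    have h7 : E * v5 * (1 / 8) ≤ E * (v1 * v3) := by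
      calc E * v5 * (1 / 8) ≤ E * v1 * v3 := by gcongr
        _ = E * (v1 * v3) := by ring
    have h8 : E * (1 / 8) * v5 < 4 * cB * v4 * v5 := by
      calc E * (1 / 8) * v5 = E * v5 * (1 / 8) := by ring
        _ ≤ E * (v1 * v3) := h7
        _ < 4 * cB * (v4 * v5) := h6
        _ = 4 * cB * v4 * v5 := by ring
    have h9 := lt_of_mul_lt_mul_right h8 hv50.le
    calc E ≤ 32 * cB * v4 := by linarith
      _ ≤ 32 * cB * 2 ^ (2 * z + 2 * L * (uX + uY)) := by gcongr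
      _ ≤ 32 * cB * 2 ^ (2 * z + 4 * L * z) := by
        gcongr
        · norm_num
        · norm_num
      _ = 2 ^ (2 * z + 5 + 4 * L * z) * cB := by
        have : (2 : ℝ) ^ (2 * z + 5 + 4 * L * z) = 32 * 2 ^ (2 * z + 4 * L * z) := by
          have e : 2 * z + 5 + 4 * L * z = 5 + (2 * z + 4 * L * z) := by ring
          rw [e, pow_add]
          norm_num
        rw [this]
        ring

theorem pf_NXY : S_NXY := by
  intro N m k w0 P z lam t t0 uX uY nl nh cA cB hC htN ht ht0 hnh hcA hcB h1 h2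
  have hPR : (16 : ℝ) ≤ P := by exact_mod_cast hC.hP
  have hP1 : (1 : ℝ) ≤ P := by linarith
  have hR : ((P : ℝ) ^ 8) ^ 2 = (P : ℝ) ^ 16 := by rw [← pow_mul]
  have hQ1 : 1 ≤ (P : ℝ) ^ 16 := one_le_pow₀ hP1
  have he16 : 2 * (P ^ 16 / 2) = P ^ 16 :=
    Nat.two_mul_div_two_of_even (hC.hPe.pow_of_ne_zero (by norm_num))
  have he8 : 2 * (P ^ 8 / 2) = P ^ 8 :=
    Nat.two_mul_div_two_of_even (hC.hPe.pow_of_ne_zero (by norm_num))
  have hbb : bb P ^ 2 = 2 ^ (P ^ 16) := by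
    unfold bb
    rw [← pow_mul, mul_comm, he16]
  have hcc : cc P ^ 2 = 2 ^ (P ^ 8) := by
    unfold cc
    rw [← pow_mul, mul_comm, he8]
  have hb0 : 0 < bb P := by
    unfold bb
    exact pow_pos (by norm_num) _
  have hl : 64 * (N : ℝ) * z * ((P : ℝ) ^ 16) ^ (k + 4) ≤ 2 ^ lam := by
    have h3 : ((64 * N * z * (P ^ 16) ^ (k + 7) : ℕ) : ℝ) ≤ ((2 ^ lam : ℕ) : ℝ) :=
      Nat.cast_le.2 hC.hlam
    rw [Nat.cast_mul, Nat.cast_mul, Nat.cast_mul, Nat.cast_pow, Nat.cast_pow, Nat.cast_pow] at h3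
    have h4 : ((P : ℝ) ^ 16) ^ (k + 4) ≤ ((P : ℝ) ^ 16) ^ (k + 7) :=
      pow_le_pow_right₀ hQ1 (by omega)
    refine le_trans ?_ h3
    have h5 : (0 : ℝ) ≤ 64 * (N : ℝ) * z := by positivity
    exact mul_le_mul_of_nonneg_left h4 h5
  unfold kX at h1
  unfold kY at h2
  rw [← hbb] at hcB ⊢
  exact nxy_core hC.hN hC.hz hPR hR hQ1 hb0 hcc hl hC.hr ht ht0 hnh hcA hcB h1 h2

end Pool.Agent.H4.CPX
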